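import Pool.Agent.helper51.QS.SpecB

/-! # Row qs:CEH: heights of contractions along an integral extension of domains -/

set_option autoImplicit false

namespace Pool.Agent.QS

open Pool.Agent.PC MvPolynomial

universe u

theorem CEH : CEH_stmt.{u} := by
  intro R A _ _ _ _ _ _ _ 𝔮 𝔠 h𝔮 h𝔠 hne hlt
  have h1 : 𝔮.comap (algebraMap R A) ≠ ⊥ := Ideal.IsIntegral.comap_ne_bot R hne
  have h2 : 𝔮.comap (algebraMap R A) < 𝔠.comap (algebraMap R A) := Ideal.IsIntegral.comap_lt_comap hlt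
  have i1 : (𝔮.comap (algebraMap R A)).IsPrime := Ideal.comap_isPrime _ _
  have i2 : (𝔠.comap (algebraMap R A)).IsPrime := Ideal.comap_isPrime _ _
  have i3 : (⊥ : Ideal R).IsPrime := Ideal.isPrime_bot
  have h3 := Ideal.height_add_one_le_of_lt_of_isPrime (bot_lt_iff_ne_bot.2 h1)
  have h4 := Ideal.height_add_one_le_of_lt_of_isPrime h2
  have h5 : (1 : ℕ∞) ≤ (𝔮.comap (algebraMap R A)).height := le_trans (by simp) h3
  calc (2 : ℕ∞) = 1 + 1 := by norm_num
    _ ≤ (𝔮.comap (algebraMap R A)).height + 1 := by gcongr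
    _ ≤ _ := h4

end Pool.Agent.QS
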