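import Pool.Agent.helper51.QS.SpecA
import Pool.Agent.helper51.QS.Lib

/-! # Row qs:WDR: derivations and monomial valuations -/

set_option autoImplicit false

namespace Pool.Agent.QS

open Pool.Agent.PC MvPolynomial

universe u

/-- the Euler type operator `X_i ∂_i` multiplies the coefficients -/
theorem WDR_coeff {k : Type u} [Field k] {n : ℕ} (i : Fin n) (f : MvPowerSeries (Fin n) k)
    (γ : Fin n →₀ ℕ) (h : MvPowerSeries.coeff γ f = 0) :
    MvPowerSeries.coeff γ (MvPowerSeries.X i * MvPowerSeries.pderiv k i f) = 0 := by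
  classical
  show MvPowerSeries.coeff γ ((MvPowerSeries.monomial (Finsupp.single i 1) (1 : k)) *
    MvPowerSeries.pderiv k i f) = 0
  rw [MvPowerSeries.coeff_monomial_mul]
  split_ifs with h1
  · rw [MvPowerSeries.coeff_pderiv, tsub_add_cancel_of_le h1, h]
    simp
  · rfl

/-- the case of elements of `A` -/
theorem WDR_A (hTDR : TDR_stmt.{u}) {k A K : Type u} [Field k] [CommRing A] [IsDomain A] [Algebra k A]
    [Field K] [Algebra k K] [Algebra A K] [IsScalarTower k A K] [IsFractionRing A K] {n : ℕ}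
    {m : Ideal A} [m.IsMaximal] {y : Fin n → A} {φ : A →ₐ[k] MvPowerSeries (Fin n) k}
    {D : Fin n → Derivation k K K} (hT : Taylor m y φ) (hD : Dual m y D) {w : Fin n → ℕ} {v : K → ℤ}
    (hW : IsW φ w v) (i : Fin n) (a : A) (r : ℤ) (ha : Ge v r (algebraMap A K a)) :
    Ge v r (algebraMap A K (y i) * D i (algebraMap A K a)) := by
  classical
  obtain ⟨b, s, hs, hbs⟩ := hD.2 i a
  have h1 := hTDR k A K n m y φ D hT hD i a b s hs hbs
  have hinj : Function.Injective (algebraMap A K) := IsFractionRing.injective A K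
  -- the value of `s`
  have hs0 : algebraMap A K s ≠ 0 := by
    intro h0
    rw [map_eq_zero_iff _ hinj] at h0
    apply hs
    rw [h0]
    exact m.zero_mem
  have hvs : v (algebraMap A K s) = 0 := by
    have h2 : (0 : ℤ) ≤ v (algebraMap A K s) := (Lib_W0 hW s).resolve_left hs0
    have h3 : ¬ Ge v ((1 : ℕ) : ℤ) (algebraMap A K s) := by
      intro h4
      rw [Lib_mem hT] at hs
      exact hs ((hW.2 s 1).1 h4 0 (by rw [map_zero]; exact one_pos))
    have h5 : ¬ ((1 : ℕ) : ℤ) ≤ v (algebraMap A K s) := fun h6 => h3 (Or.inr h6)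
    push_cast at h5
    omega
  -- the value of `y_i * b`
  have h2 : Ge v r (algebraMap A K (y i * b)) := by
    by_cases hr : r ≤ 0
    · exact CON_ge_mono hr (Lib_W0 hW _)
    obtain ⟨r', rfl⟩ := Int.eq_ofNat_of_zero_le (le_of_lt (not_le.1 hr))
    rw [hW.2]
    intro α hα
    have h3 : φ (y i * b) = φ s * (MvPowerSeries.X i * MvPowerSeries.pderiv k i (φ a)) := by
      rw [map_mul, hT.1 i, h1]
      ring
    rw [h3, MvPowerSeries.coeff_mul]
    apply Finset.sum_eq_zero
    rintro ⟨β, γ⟩ hβγ
    rw [Finset.HasAntidiagonal.mem_antidiagonal] at hβγ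
    have h4 : Finsupp.weight w γ < r' := by
      have h5 : Finsupp.weight w β + Finsupp.weight w γ = Finsupp.weight w α := by
        rw [← map_add]
        exact congrArg _ hβγ
      omega
    have h6 := WDR_coeff i (φ a) γ ((hW.2 a r').1 ha γ h4)
    show MvPowerSeries.coeff β (φ s) * MvPowerSeries.coeff γ _ = 0
    rw [h6, mul_zero]
  have h3 : algebraMap A K (y i) * D i (algebraMap A K a)
      = algebraMap A K (y i * b) * (algebraMap A K s)⁻¹ := by
    rw [hbs, map_mul, div_eq_mul_inv]
    ring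
  rw [h3]
  have h4 : Ge v 0 (algebraMap A K s)⁻¹ := by
    refine Or.inr ?_
    rw [CON_inv hW.1 _ hs0, hvs, neg_zero]
  have h5 := CON_ge_mul hW.1 h2 h4
  rwa [add_zero] at h5

theorem WDR (hTDR : TDR_stmt.{u}) : WDR_stmt.{u} := by
  intro k A K _ _ _ _ _ _ _ _ _ n m _ y φ D hT hD w v hW i b r hb
  by_cases hb0 : b = 0
  · rw [hb0, map_zero, mul_zero]
    exact CON_ge_zero r
  obtain ⟨a, c, hc, rfl⟩ := IsFractionRing.div_surjective (A := A) b
  have hinj : Function.Injective (algebraMap A K) := IsFractionRing.injective A K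
  have hc0 : algebraMap A K c ≠ 0 := by
    intro h
    rw [map_eq_zero_iff _ hinj] at h
    exact (mem_nonZeroDivisors_iff_ne_zero.1 hc) h
  have ha0 : algebraMap A K a ≠ 0 := by
    intro h
    apply hb0
    rw [h, zero_div]
  have h1 := WDR_A hTDR hT hD hW i a (v (algebraMap A K a)) (Or.inr le_rfl)
  have h2 := WDR_A hTDR hT hD hW i c (v (algebraMap A K c)) (Or.inr le_rfl)
  set b := algebraMap A K a / algebraMap A K c with hbdef
  have hbv : v b = v (algebraMap A K a) - v (algebraMap A K c) := CON_div hW.1 _ _ ha0 hc0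
  have hrb : r ≤ v b := hb.resolve_left hb0
  have h3 : D i (algebraMap A K a) = b * D i (algebraMap A K c) + algebraMap A K c * D i b := by
    have h4 : algebraMap A K a = b * algebraMap A K c := by
      rw [hbdef, div_mul_cancel₀ _ hc0]
    rw [h4, Derivation.leibniz, smul_eq_mul, smul_eq_mul]
  have h4 : algebraMap A K (y i) * D i b = (algebraMap A K (y i) * D i (algebraMap A K a)
      - b * (algebraMap A K (y i) * D i (algebraMap A K c))) * (algebraMap A K c)⁻¹ := by
    rw [h3]
    field_simp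
    ring
  rw [h4]
  have h5 : Ge v (v b + v (algebraMap A K c)) (b * (algebraMap A K (y i) * D i (algebraMap A K c))) :=
    CON_ge_mul hW.1 (Or.inr le_rfl) h2
  have h6 : Ge v (v b + v (algebraMap A K c)) (algebraMap A K (y i) * D i (algebraMap A K a)) := by
    have h7 : v b + v (algebraMap A K c) = v (algebraMap A K a) := by rw [hbv]; ring
    rw [h7]
    exact h1
  have h7 : Ge v (-v (algebraMap A K c)) (algebraMap A K c)⁻¹ := by
    refine Or.inr ?_
    rw [CON_inv hW.1 _ hc0]
  have h8 := CON_ge_mul hW.1 (CON_ge_sub hW.1 h6 h5) h7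
  exact CON_ge_mono (by omega) h8

end Pool.Agent.QS
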