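import Pool.Agent.helper32.QS.Spec

set_option autoImplicit false

namespace QS

open scoped BigOperators commutatorElement

theorem SQ_comm {k U H : Type} [Field k] [AddCommGroup U] [Module k U] [Group H]
    [DistribMulAction H U] (hf : Fai H U) :
    ∀ a ∈ SA k U H, ∀ b ∈ SA k U H, a * b = b * a := by
  rintro a ⟨c, hc⟩ b ⟨d, hd⟩
  have h1 : (b * a)⁻¹ * (a * b) = 1 := by
    apply hf
    intro v
    have h2 : (a * b) • v = (b * a) • v := by
      rw [mul_smul, mul_smul, hd, hc, hc, hd, smul_smul, smul_smul, mul_comm]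
    rw [mul_smul, h2, inv_smul_smul]
  calc a * b = (b * a) * ((b * a)⁻¹ * (a * b)) := by rw [mul_inv_cancel_left]
    _ = b * a := by rw [h1, mul_one]

theorem SQ (hDU : DU_stmt) : SQ_stmt := by
  intro k U H _ _ _ _ _ _ _ _ hS S hSS
  classical
  let F : Set (Subgroup H) := {W | SA k U H ≤ W ∧ W ≤ S ∧ ∀ a ∈ W, ∀ b ∈ W, a * b = b * a}
  have hF : F.Finite := Set.toFinite F
  have hne : F.Nonempty := ⟨SA k U H, le_refl _, hSS.hA, SQ_comm hS.faith⟩
  obtain ⟨W, hW⟩ := hF.exists_maximal hne
  obtain ⟨⟨hAW, hWS, hWc⟩, hmax⟩ := hW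
  refine ⟨(SA k U H).relIndex W, ?_⟩
  have h1 := hDU k U H hS S hSS W W hAW hWS (fun x => ?_)
  · rw [← h1, sq]
  · constructor
    · intro hx
      exact ⟨hWS hx, fun w hw => hWc x hx w hw⟩
    · rintro ⟨hxS, hxw⟩
      let K : Set H := (W : Set H) ∪ {x}
      have hK : ∀ a ∈ K, ∀ b ∈ K, a * b = b * a := by
        rintro a (ha | ha) b (hb | hb)
        · exact hWc a ha b hb
        · rw [Set.mem_singleton_iff] at hb
          rw [hb]
          exact (hxw a ha).symm
        · rw [Set.mem_singleton_iff] at ha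
          rw [ha]
          exact hxw b hb
        · rw [Set.mem_singleton_iff] at ha hb
          rw [ha, hb]
      have hKc : ∀ a ∈ Subgroup.closure K, ∀ b ∈ Subgroup.closure K, a * b = b * a := by
        intro a ha b hb
        have hc := Subgroup.isMulCommutative_closure hK
        exact congrArg Subtype.val (hc.is_comm.comm ⟨a, ha⟩ ⟨b, hb⟩)
      have hWK : W ≤ Subgroup.closure K := fun w hw => Subgroup.subset_closure (Or.inl hw)
      have hmem : Subgroup.closure K ∈ F := by
        refine ⟨hAW.trans hWK, ?_, hKc⟩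
        rw [Subgroup.closure_le]
        rintro a (ha | ha)
        · exact hWS ha
        · rw [Set.mem_singleton_iff] at ha
          rw [ha]
          exact hxS
      exact hmax hmem hWK (Subgroup.subset_closure (Or.inr rfl))

end QS
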